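import Pool.Agent.Lib.MP_b1a3a4_al.MVS.LG.Iface

/-!
# Project MVS, part IV: modules CUPCOC (12.20) and CUPEQ (12.21)
-/

set_option linter.all false

namespace Pool.Agent.Lib.MP_b1a3a4_al.MVS.LG.H43

open Finsupp

/-- the cup product commutes with additive maps of the coefficients -/
theorem cup_map {S V V' : Type} [AddCommGroup V] [AddCommGroup V'] (A : V →+ V') :
    ∀ (n : ℕ) (w : (Fin n → S) → V) (s : Fin (n + 1) → S),
      cup n (fun t => A (w t)) s = A (cup n w s) := by
  intro n
  induction n with
  | zero => intro w s; rfl
  | succ n ih =>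
    intro w s
    simp only [cup, ← map_sub]
    exact ih _ _

theorem cup_sub {S V : Type} [AddCommGroup V] :
    ∀ (n : ℕ) (w w' : (Fin n → S) → V) (s : Fin (n + 1) → S),
      cup n (fun t => w t - w' t) s = cup n w s - cup n w' s := by
  intro n
  induction n with
  | zero => intro w w' s; rfl
  | succ n ih =>
    intro w w' s
    simp only [cup]
    rw [← ih]
    congr 1
    funext t
    abel

/-- Module CUPCOC. -/
theorem cupcoc : CupcocStatement := by
  intro S V _ n
  induction n with
  | zero =>
    intro w t
    simp [Fin.sum_univ_succ, cup]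
  | succ n ih =>
    intro w t
    have hih := ih (fun t' => w (Fin.snoc t' (t (Fin.last (n + 2)))) -
      w (Fin.snoc t' (t (Fin.castSucc (Fin.last (n + 1)))))) (fun i => t (Fin.castSucc i))
    rw [Fin.sum_univ_castSucc] at hih
    rw [Fin.sum_univ_castSucc, Fin.sum_univ_castSucc]
    have h1 : ∀ k : Fin (n + 1), cup (n + 1) w (fun i => t (k.castSucc.castSucc.succAbove i)) =
        cup n (fun t' => w (Fin.snoc t' (t (Fin.last (n + 2)))) -
          w (Fin.snoc t' (t (Fin.castSucc (Fin.last (n + 1))))))
          (fun i => t (Fin.castSucc (k.castSucc.succAbove i))) := by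
      intro k
      simp only [cup]
      have e1 : k.castSucc.castSucc.succAbove (Fin.last (n + 1)) = Fin.last (n + 2) := by
        rw [Fin.succAbove_of_le_castSucc]
        · rfl
        · rw [Fin.le_def]; simp only [Fin.val_castSucc, Fin.val_last]; omega
      have e2 : k.castSucc.castSucc.succAbove (Fin.castSucc (Fin.last n)) =
          Fin.castSucc (Fin.last (n + 1)) := by
        rw [Fin.succAbove_of_le_castSucc]
        · rfl
        · rw [Fin.le_def]; simp only [Fin.val_castSucc, Fin.val_last]; omega
      rw [e1, e2]
      congr 1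
      funext i
      rw [← Fin.castSucc_succAbove_castSucc]
    have h2 : cup (n + 1) w (fun i => t ((Fin.last (n + 1)).castSucc.succAbove i)) =
        cup n (fun t' => w (Fin.snoc t' (t (Fin.last (n + 2)))) -
          w (Fin.snoc t' (t (Fin.castSucc (Fin.castSucc (Fin.last n))))))
          (fun i => t (Fin.castSucc ((Fin.last (n + 1)).succAbove i))) := by
      simp only [cup]
      have e1 : (Fin.last (n + 1)).castSucc.succAbove (Fin.last (n + 1)) = Fin.last (n + 2) := by
        rw [Fin.succAbove_of_le_castSucc]
        · rfl
        · exact le_refl _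
      have e2 : (Fin.last (n + 1)).castSucc.succAbove (Fin.castSucc (Fin.last n)) =
          Fin.castSucc (Fin.castSucc (Fin.last n)) := by
        rw [Fin.succAbove_of_castSucc_lt]
        rw [Fin.lt_def]; simp only [Fin.val_castSucc, Fin.val_last]; omega
      rw [e1, e2]
      congr 1
      funext i
      rw [← Fin.castSucc_succAbove_castSucc]
    have h3 : cup (n + 1) w (fun i => t ((Fin.last (n + 2)).succAbove i)) =
        cup n (fun t' => w (Fin.snoc t' (t (Fin.castSucc (Fin.last (n + 1))))) -
          w (Fin.snoc t' (t (Fin.castSucc (Fin.castSucc (Fin.last n))))))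
          (fun i => t (Fin.castSucc ((Fin.last (n + 1)).succAbove i))) := by
      simp only [cup, Fin.succAbove_last]
    simp only [h1, h2, h3]
    rw [← hih]
    simp only [cup_sub, Fin.val_castSucc, Fin.val_last]
    rw [pow_succ (-1 : ℤ) (n + 1)]
    simp only [mul_neg, mul_one, neg_smul, smul_sub]
    abel

/-- the cup product of `m` differences under translation by `s`; `g` is the image of `s` -/
theorem cupeq_aux {n : ℕ} {L : Fin n → Type} [∀ j, Group (L j)] {S : Type} [Group S] (s : S)
    (g : ∀ j, L j) : ∀ (m : ℕ) (hm : m ≤ n) (W : (Fin m → S) → L2 (∀ j, L j)),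
    (∀ (j : Fin m) (t : Fin m → S) (a b : S),
      W (Function.update t j (s * a)) - W (Function.update t j (s * b)) =
        lm (Pi.mulSingle (Fin.castLE hm j) (g (Fin.castLE hm j)))
          (W (Function.update t j a) - W (Function.update t j b))) →
    ∀ t : Fin (m + 1) → S, cup m W (fun i => s * t i) =
      lm (fun j : Fin n => if (j : ℕ) < m then g j else 1) (cup m W t) := by
  intro m
  induction m with
  | zero =>
    intro hm W _ t
    have h1 : (fun j : Fin n => if (j : ℕ) < 0 then g j else 1) = (1 : ∀ j, L j) := by
      funext j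
      simp
    rw [h1, lm_one]
    rfl
  | succ m ih =>
    intro hm W hW t
    simp only [cup]
    have hD : (fun t' : Fin m → S => W (Fin.snoc t' (s * t (Fin.last (m + 1)))) -
        W (Fin.snoc t' (s * t (Fin.castSucc (Fin.last m))))) =
      fun t' => (lm (Pi.mulSingle (Fin.castLE hm (Fin.last m)) (g (Fin.castLE hm (Fin.last m))))
        : L2 (∀ j, L j) →L[ℝ] L2 (∀ j, L j)).toLinearMap.toAddMonoidHom
        (W (Fin.snoc t' (t (Fin.last (m + 1)))) -
          W (Fin.snoc t' (t (Fin.castSucc (Fin.last m))))) := by
      funext t'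
      have := hW (Fin.last m) (Fin.snoc t' 1) (t (Fin.last (m + 1))) (t (Fin.castSucc (Fin.last m)))
      simp only [Fin.update_snoc_last] at this
      exact this
    rw [hD, cup_map]
    rw [ih (by omega) _ ?_ (fun i => t i.castSucc)]
    · show lm _ (lm _ _) = _
      rw [← lm_mul]
      congr 2
      funext j
      by_cases hj : j = Fin.castLE hm (Fin.last m)
      · subst hj
        simp
      · have hj' : (j : ℕ) ≠ m := fun h => hj (Fin.ext (by simpa using h))
        rw [Pi.mul_apply, Pi.mulSingle_eq_of_ne hj, one_mul]
        by_cases hlt : (j : ℕ) < m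
        · rw [if_pos hlt, if_pos (by omega)]
        · rw [if_neg hlt, if_neg (by omega)]
    · intro j t' a b
      have h1 := hW j.castSucc (Fin.snoc t' (t (Fin.last (m + 1)))) a b
      have h2 := hW j.castSucc (Fin.snoc t' (t (Fin.castSucc (Fin.last m)))) a b
      simp only [Fin.snoc_update] at h1 h2 ⊢
      have e : Fin.castLE hm j.castSucc = Fin.castLE (show m ≤ n by omega) j := rfl
      rw [e] at h1 h2
      rw [sub_sub_sub_comm, h1, h2, ← map_sub, sub_sub_sub_comm]

/-- Module CUPEQ. -/
theorem cupeq : CupeqStatement := by
  intro n L _ S _ π w hw s t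
  have h := cupeq_aux s (π s) n le_rfl (wS π w) ?_ t
  · rw [h]
    congr 2
    funext j
    rw [if_pos j.2]
  · intro j t a b
    have e : ∀ c : S, wS π w (Function.update t j c) =
        w (Function.update (fun i => π (t i) i) j (π c j)) := by
      intro c
      unfold wS
      congr 1
      funext i
      by_cases hi : i = j
      · subst hi
        simp
      · simp [hi]
    simp only [e, map_mul, Pi.mul_apply, Fin.castLE_rfl, id]
    rw [hw j, hw j, map_sub]
    abel

end Pool.Agent.Lib.MP_b1a3a4_al.MVS.LG.H43
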