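import Pool.Agent.Lib.MP_b1a3a4_al.MVS.LG.Iface
import Pool.Agent.Lib.MP_b1a3a4_al.MVS.FR.H82.Vsfree

/-!
# Project MVS, part IV: module VSLIM (12.26)
-/

set_option linter.all false

namespace Pool.Agent.Lib.MP_b1a3a4_al.MVS.LG.H43

open Finsupp FR.H82

/-- nontrivial subgroups of cyclic groups have finite index -/
theorem cyclic_index {C : Type} [Group C] (hC : IsCyclic C) (N : Subgroup C) (hN : N ≠ ⊥) :
    N.index ≠ 0 := by
  obtain ⟨g, hg⟩ := hC.exists_generator
  let f : Multiplicative ℤ →* C := zpowersHom C g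
  have hf : Function.Surjective f := by
    intro x
    obtain ⟨m, hm⟩ := Subgroup.mem_zpowers_iff.1 (hg x)
    exact ⟨Multiplicative.ofAdd m, hm⟩
  obtain ⟨⟨x, hx⟩, hx0⟩ := N.ne_bot_iff_exists_ne_one.1 hN
  obtain ⟨m, hm⟩ := hf x
  have hm0 : m ≠ 1 := by
    rintro rfl
    apply hx0
    rw [map_one] at hm
    exact Subtype.ext hm.symm
  rw [← Subgroup.index_comap_of_surjective N hf]
  have hle : Subgroup.zpowers m ≤ N.comap f := by
    rw [Subgroup.zpowers_le]
    show f m ∈ N
    rw [hm]; exact hx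
  have hidx : (Subgroup.zpowers m).index ≠ 0 := by
    have h1 := Int.index_zmultiples (Multiplicative.toAdd m)
    have h2 : (Subgroup.zpowers m).index =
        (AddSubgroup.zmultiples (Multiplicative.toAdd m)).index := rfl
    rw [h2, h1]
    intro h3
    apply hm0
    have : Multiplicative.toAdd m = 0 := Int.natAbs_eq_zero.1 h3
    exact this
  intro h
  have := Subgroup.index_dvd_of_le hle
  rw [h, zero_dvd_iff] at this
  exact hidx this

lemma isFP_pred (R : Type) [Ring R] (n : ℕ) : ∀ (A : Type) [AddCommGroup A] [Module R A],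
    IsFP R (n + 1) A → IsFP R n A := by
  induction n with
  | zero => exact fun A _ _ h => H27.isFP_finite R _ A h
  | succ n ih =>
    intro A _ _ h
    obtain ⟨r, f, hf, hk⟩ := h
    exact ⟨r, f, hf, ih _ hk⟩

lemma isFP_mono (R : Type) [Ring R] {m n : ℕ} (hmn : m ≤ n) (A : Type) [AddCommGroup A]
    [Module R A] (h : IsFP R n A) : IsFP R m A := by
  induction n, hmn using Nat.le_induction with
  | base => exact h
  | succ n _ ih => exact ih (isFP_pred R n A h)

lemma frf_sub {L : Type} [Group L] (h : FRF L) (H : Subgroup L) : FRF H := by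
  classical
  intro X
  obtain ⟨F, hF1, hF2, f, hf⟩ := h (X.image Subtype.val)
  refine ⟨F, hF1, hF2, f.comp H.subtype, ?_⟩
  intro x hx y hy hxy
  apply Subtype.ext
  apply hf _ _ hxy
  · exact Finset.mem_coe.2 (Finset.mem_image_of_mem _ hx)
  · exact Finset.mem_coe.2 (Finset.mem_image_of_mem _ hy)

section main

variable {I : Type} {L : I → Type} [∀ i, Group (L i)]

lemma nr_le_pr [DecidableEq I] (S : Subgroup (∀ i, L i)) (j : I) : nr S j ≤ pr S j := by
  intro x hx
  exact ⟨Pi.mulSingle j x, hx, by simp⟩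

lemma sub_ne_bot [DecidableEq I] (S : Subgroup (∀ i, L i)) (j : I) (h : nr S j ≠ ⊥) :
    (nr S j).subgroupOf (pr S j) ≠ ⊥ := by
  intro hbot
  obtain ⟨⟨x, hx⟩, hx0⟩ := (nr S j).ne_bot_iff_exists_ne_one.1 h
  have h5 : (⟨x, nr_le_pr S j hx⟩ : pr S j) ∈ (nr S j).subgroupOf (pr S j) := hx
  rw [hbot, Subgroup.mem_bot] at h5
  have h6 : x = 1 := congrArg Subtype.val h5
  exact hx0 (Subtype.ext h6)

lemma sub_normal [DecidableEq I] (S : Subgroup (∀ i, L i)) (j : I) :
    ((nr S j).subgroupOf (pr S j)).Normal := by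
  constructor
  rintro ⟨x, hx'⟩ hx ⟨g, s, hs, rfl⟩
  have hx2 : (Pi.mulSingle j x : ∀ i, L i) ∈ S := hx
  have := S.mul_mem (S.mul_mem hs hx2) (S.inv_mem hs)
  rw [conj_mulSingle] at this
  exact this

lemma mem_of_single [DecidableEq I] (S : Subgroup (∀ i, L i)) (x : ∀ i, L i) (A : Finset I)
    (h : ∀ a ∈ A, (Pi.mulSingle a (x a) : ∀ i, L i) ∈ S) :
    (fun j => if j ∈ A then x j else 1) ∈ S := by
  induction A using Finset.induction_on with
  | empty =>
    have : (fun j => if j ∈ (∅ : Finset I) then x j else 1) = (1 : ∀ i, L i) := by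
      funext j; simp
    rw [this]
    exact one_mem _
  | insert a A ha ih =>
    have e : (fun j => if j ∈ insert a A then x j else 1) =
        (Pi.mulSingle a (x a) : ∀ i, L i) * (fun j => if j ∈ A then x j else 1) := by
      funext j
      by_cases hj : j = a
      · subst hj
        simp [ha]
      · rw [Pi.mul_apply, Pi.mulSingle_eq_of_ne hj, one_mul]
        simp [hj]
    rw [e]
    exact mul_mem (h a (Finset.mem_insert_self a A))
      (ih (fun b hb => h b (Finset.mem_insert_of_mem hb)))

/-- Module VSLIM. -/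
theorem vslim (h1 : Vsl2Statement) (h2 : FpfgStatement) : VslimStatement := by
  classical
  intro n hn I _ _ L _ hFRF U S hsupp hne hab hFP J hJ hJc
  have hS : Group.FG S := by
    obtain ⟨m, rfl⟩ : ∃ m, n = m + 1 := ⟨n - 1, by omega⟩
    exact h2 ℤ S (H27.isFP_one _ m _ hFP)
  have hSX : S ≤ piS U S := by
    intro s hs
    exact ⟨fun j => ⟨s, hs, rfl⟩, fun j hj => hsupp s hs j hj⟩
  -- the non-abelian indices
  obtain ⟨J1, hJ1⟩ : ∃ J1 : Finset I, J1 = J.filter (fun j => NonAb (pr S j)) := ⟨_, rfl⟩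
  have hJ1J : J1 ⊆ J := by rw [hJ1]; exact Finset.filter_subset _ _
  have hJ1n : ∀ j ∈ J1, NonAb (pr S j) := by
    intro j hj; rw [hJ1] at hj; exact (Finset.mem_filter.1 hj).2
  have hJ2 : ∀ j ∈ J, j ∉ J1 → IsCyclic (pr S j) := by
    intro j hj hj1
    rcases hab j (hJ hj) with h | h
    · exact absurd (by rw [hJ1]; exact Finset.mem_filter.2 ⟨hj, h⟩) hj1
    · exact h
  -- first step: the projection to the indices in `J1`
  have hM' : (S ⊔ kerJ L J1).relIndex (piS U S) ≠ 0 := by
    rcases Finset.eq_empty_or_nonempty J1 with hemp | hnem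
    · have : (S ⊔ kerJ L J1) = ⊤ := by
        rw [eq_top_iff]
        intro x _
        refine mem_sup_kerJ.2 ⟨1, one_mem _, ?_⟩
        intro j hj
        rw [hemp] at hj
        exact absurd hj (Finset.notMem_empty j)
      rw [this, Subgroup.relIndex_top_left]
      exact one_ne_zero
    · obtain ⟨k, hk⟩ : ∃ k, J1.card = k + 1 :=
        ⟨J1.card - 1, by have := Finset.card_pos.2 hnem; omega⟩
      have hkn : k + 1 ≤ n := by
        rw [← hk, ← hJc]
        exact Finset.card_le_card hJ1J
      let e : Fin (k + 1) ≃ J1 := (Finset.equivFinOfCardEq hk).symm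
      let π : S →* ∀ j : Fin (k + 1), pr S (e j : I) :=
        { toFun := fun s j => prHom S (e j : I) s
          map_one' := rfl
          map_mul' := fun _ _ => rfl }
      have heU : ∀ j, (e j : I) ∈ U := fun j => hJ (hJ1J (e j).2)
      let N : ∀ j : Fin (k + 1), Subgroup (pr S (e j : I)) :=
        fun j => (nr S (e j : I)).subgroupOf (pr S (e j : I))
      let ν : ∀ j : Fin (k + 1), N j →* S := fun j =>
        { toFun := fun y => ⟨Pi.mulSingle (e j : I) ((y : pr S (e j : I)) : L (e j : I)), y.2⟩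
          map_one' := Subtype.ext (Pi.mulSingle_one _)
          map_mul' := fun a b => Subtype.ext (Pi.mulSingle_mul _ _ _) }
      have hfin : π.range.FiniteIndex := by
        refine h1 k (fun j => pr S (e j : I)) S π N (fun j => sub_normal S _)
          (fun j => sub_ne_bot S _ (hne _ (heU j))) (fun j => fg_pr hS _)
          (fun j => frf_sub (hFRF _) _) (fun j => hJ1n _ (e j).2) ν ?_ ?_ (isFP_mono _ hkn _ hFP)
        · intro j y
          funext i
          apply Subtype.ext
          show (Pi.mulSingle (e j : I) ((y : pr S (e j : I)) : L (e j : I)) : ∀ i, L i) (e i : I) =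
            _
          by_cases hij : i = j
          · subst hij
            simp
          · have : (e i : I) ≠ (e j : I) := fun h => hij (e.injective (Subtype.ext h))
            rw [Pi.mulSingle_eq_of_ne this, Pi.mulSingle_eq_of_ne hij]
            rfl
        · intro i j hij y y'
          apply Subtype.ext
          have : (e i : I) ≠ (e j : I) := fun h => hij (e.injective (Subtype.ext h))
          exact Pi.mulSingle_commute this _ _
      -- transfer
      let Φ : piS U S →* ∀ j : Fin (k + 1), pr S (e j : I) :=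
        { toFun := fun x j => ⟨(x : ∀ i, L i) (e j : I), x.2.1 _⟩
          map_one' := rfl
          map_mul' := fun _ _ => rfl }
      have h3 : π.range.comap Φ ≤ (S ⊔ kerJ L J1).subgroupOf (piS U S) := by
        rintro ⟨x, hx⟩ ⟨s, hs⟩
        refine mem_sup_kerJ.2 ⟨s, s.2, ?_⟩
        intro j hj
        have h4 := congrFun hs (e.symm ⟨j, hj⟩)
        have h5 := congrArg Subtype.val h4
        have h6 : (s : ∀ i, L i) (e (e.symm ⟨j, hj⟩) : I) = x (e (e.symm ⟨j, hj⟩) : I) := h5
        rw [Equiv.apply_symm_apply] at h6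
        exact h6
      have h4 : (π.range.comap Φ).index ≠ 0 := by
        rw [Subgroup.index_comap]
        intro h
        exact hfin.index_ne_zero (Subgroup.index_eq_zero_of_relIndex_eq_zero h)
      intro h5
      have h6 := Subgroup.index_dvd_of_le h3
      rw [show ((S ⊔ kerJ L J1).subgroupOf (piS U S)).index = 0 from h5, zero_dvd_iff] at h6
      exact h4 h6
  -- second step
  have hMK : (S ⊔ kerJ L J).relIndex (kerJ L J1 ⊓ piS U S) ≠ 0 := by
    have h6 : ∀ j, (if j ∈ J ∧ j ∉ J1 then (nr S j).comap (Pi.evalMonoidHom L j) else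
        (⊤ : Subgroup (∀ i, L i))).relIndex (kerJ L J1 ⊓ piS U S) ≠ 0 := by
      intro j
      split_ifs with hj
      · rw [Subgroup.relIndex_comap]
        have h7 : (nr S j).relIndex (pr S j) ≠ 0 := by
          apply cyclic_index (hJ2 j hj.1 hj.2)
          intro hbot
          exact sub_ne_bot S j (hne j (hJ hj.1)) hbot
        refine mt (Subgroup.relIndex_eq_zero_of_le_right ?_) h7
        rintro _ ⟨x, hx, rfl⟩
        exact hx.2.1 j
      · rw [Subgroup.relIndex_top_left]
        exact one_ne_zero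
    have h7 := Subgroup.relIndex_iInf_ne_zero h6
    refine mt ?_ h7
    intro h8
    have h9 : ((⨅ j, (if j ∈ J ∧ j ∉ J1 then (nr S j).comap (Pi.evalMonoidHom L j) else
        (⊤ : Subgroup (∀ i, L i)))) ⊓ (kerJ L J1 ⊓ piS U S)).relIndex
          (kerJ L J1 ⊓ piS U S) = 0 := by
      refine Subgroup.relIndex_eq_zero_of_le_left ?_ h8
      rintro x ⟨hx1, hx2⟩
      refine mem_sup_kerJ.2 ?_
      -- the product of the components of `x` in `J`
      refine ⟨fun j => if j ∈ J then x j else 1, mem_of_single S x J ?_, fun j hj => if_pos hj⟩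
      intro a ha
      by_cases ha1 : a ∈ J1
      · have hxa : x a = 1 := hx2.1 a ha1
        rw [hxa, Pi.mulSingle_one]
        exact one_mem _
      · have h10 := (Subgroup.mem_iInf.1 hx1) a
        rw [if_pos ⟨ha, ha1⟩] at h10
        exact h10
    rwa [Subgroup.inf_relIndex_right] at h9
  have h10 : (S ⊔ kerJ L J).relIndex ((S ⊔ kerJ L J1) ⊓ piS U S) ≠ 0 := by
    refine relIndex_of_prod (K := kerJ L J1 ⊓ piS U S) ?_ ?_ hMK
    · exact inf_le_inf_right _ le_sup_right
    · intro x hx
      obtain ⟨s, hs, hsx⟩ := mem_sup_kerJ.1 hx.1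
      refine ⟨x * s⁻¹, ⟨?_, (piS U S).mul_mem hx.2 ((piS U S).inv_mem (hSX hs))⟩, ?_⟩
      · intro j hj
        simp [hsx j hj]
      · have : (x * s⁻¹)⁻¹ * x = s := by group
        rw [this]
        exact Subgroup.mem_sup_left hs
  have h11 : (S ⊔ kerJ L J) ⊓ piS U S ≤ (S ⊔ kerJ L J1) ⊓ piS U S := by
    refine inf_le_inf_right _ (sup_le_sup_left ?_ _)
    intro x hx j hj
    exact hx j (hJ1J hj)
  rw [← Subgroup.inf_relIndex_right, ← Subgroup.relIndex_mul_relIndex _ _ _ h11 inf_le_right]
  apply mul_ne_zero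
  · have h12 := Subgroup.inf_relIndex_right (S ⊔ kerJ L J) ((S ⊔ kerJ L J1) ⊓ piS U S)
    have h13 : (S ⊔ kerJ L J) ⊓ ((S ⊔ kerJ L J1) ⊓ piS U S) = (S ⊔ kerJ L J) ⊓ piS U S := by
      apply le_antisymm
      · exact le_inf inf_le_left (inf_le_right.trans inf_le_right)
      · exact le_inf inf_le_left h11
    rw [h13] at h12
    rw [h12]
    exact h10
  · rw [Subgroup.inf_relIndex_right]
    exact hM'

end main

end Pool.Agent.Lib.MP_b1a3a4_al.MVS.LG.H43
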